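import Mathlib
import Pool.Agent.VM5.Stmts
import Pool.Agent.Helper98_VM5.Kit

set_option autoImplicit false

/-! The energy of the bad points of part III. -/

namespace Pool.Agent.VM5.H17

open Pool.Agent.VM (Nr)
open Pool.Agent.VM5.Kit

theorem card_S {D : ℕ} {S : Finset ℕ} (hS : ∀ d ∈ S, D < d ∧ d ≤ 2 * D ∧ d.Prime) :
    S.card ≤ D := by
  have h : S ⊆ Finset.Ioc D (2 * D) := fun d hd =>
    Finset.mem_Ioc.2 ⟨(hS d hd).1, (hS d hd).2.1⟩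
  have := Finset.card_le_card h
  rw [Nat.card_Ioc] at this
  omega

theorem fin_P3 (N : ℕ) (S : Finset ℕ) : {p : ℕ × ℕ × ℕ × ℤ | p ∈ P3 N S}.Finite :=
  (P3 N S).finite_toSet

theorem fin_pairs (N : ℕ) (S : Finset ℕ) :
    {v : (ℕ × ℕ × ℕ × ℤ) × (ℕ × ℕ × ℕ × ℤ) | v.1 ∈ P3 N S ∧ v.2 ∈ P3 N S}.Finite := by
  have h := ((P3 N S) ×ˢ (P3 N S)).finite_toSet
  refine h.subset fun v hv => ?_
  simpa [Finset.mem_product] using hv

/-- the number of bad points -/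
theorem card_bad (N D : ℕ) (S : Finset ℕ) (hD : 10 < D) (hDN : D ≤ N)
    (hS : ∀ d ∈ S, D < d ∧ d ≤ 2 * D ∧ d.Prime) :
    ((P3b N S).card : ℝ) ≤ 3 * (N : ℝ) ^ 3 := by
  have hD0 : (0 : ℝ) < (D : ℝ) := by exact_mod_cast (by omega : 0 < D)
  have hDN' : (D : ℝ) ≤ (N : ℝ) := by exact_mod_cast hDN
  have hN0 : (0 : ℝ) < (N : ℝ) := by linarith
  have e0 : (Nat.card {p // p ∈ P3b N S} : ℝ) = ((P3b N S).card : ℝ) := by
    rw [Nat.card_eq_fintype_card, Fintype.card_coe]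
  rw [← e0]
  have hfin : {p : ℕ × ℕ × ℕ × ℤ | p ∈ P3b N S}.Finite := (P3b N S).finite_toSet
  have h1 := card_fib_le (P := fun p : ℕ × ℕ × ℕ × ℤ => p ∈ P3b N S) hfin
    (fun p => (p.1, p.2.1, p.2.2.1)) (Finset.Icc 1 N ×ˢ Finset.Icc 1 N ×ˢ S)
    (1 + 2 * (N : ℝ) / (D : ℝ)) ?_ ?_
  · refine h1.trans ?_
    rw [Finset.card_product, Finset.card_product, Nat.card_Icc]
    have hc : ((S.card : ℕ) : ℝ) ≤ (D : ℝ) := by exact_mod_cast card_S hS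
    have e1 : N + 1 - 1 = N := by omega
    rw [e1]
    push_cast
    have h2 : (1 : ℝ) + 2 * (N : ℝ) / (D : ℝ) ≤ 3 * (N : ℝ) / (D : ℝ) := by
      rw [le_div_iff₀ hD0, add_mul, div_mul_cancel₀ _ hD0.ne']
      linarith
    calc (N : ℝ) * ((N : ℝ) * (S.card : ℝ)) * (1 + 2 * (N : ℝ) / (D : ℝ))
        ≤ (N : ℝ) * ((N : ℝ) * (D : ℝ)) * (3 * (N : ℝ) / (D : ℝ)) := by
          apply mul_le_mul _ h2 (by positivity) (by positivity)
          exact mul_le_mul_of_nonneg_left (mul_le_mul_of_nonneg_left hc hN0.le) hN0.le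
      _ = 3 * (N : ℝ) ^ 3 := by
          field_simp
  · intro p hp
    have hp' := (Finset.mem_filter.1 hp).1
    simp only [P3, Finset.mem_product] at hp'
    simp only [Finset.mem_product]
    exact ⟨hp'.1, hp'.2.1, hp'.2.2.1⟩
  · intro y hy
    obtain ⟨a, b, d⟩ := y
    simp only [Finset.mem_product] at hy
    have hd := hS d hy.2.2
    have hfin2 : {r : ℤ | (-(N : ℤ) ≤ r ∧ r ≤ N) ∧ (d : ℤ) ∣ 2 * r + a + b}.Finite := by
      refine (Finset.Icc (-(N : ℤ)) (N : ℤ)).finite_toSet.subset fun r hr => ?_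
      simpa using hr.1
    have h2 : Nat.card {p : ℕ × ℕ × ℕ × ℤ // p ∈ P3b N S ∧ (p.1, p.2.1, p.2.2.1) = (a, b, d)} ≤
        Nat.card {r : ℤ // (-(N : ℤ) ≤ r ∧ r ≤ N) ∧ (d : ℤ) ∣ 2 * r + a + b} := by
      refine card_inj_le (fun p => p.2.2.2) hfin2 ?_ ?_
      · rintro ⟨p1, p2, p3, p4⟩ ⟨hp, he⟩
        simp only [Prod.mk.injEq] at he
        obtain ⟨rfl, rfl, rfl⟩ := he
        have hp2 := Finset.mem_filter.1 hp
        have hp' := hp2.1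
        simp only [P3, Finset.mem_product, Finset.mem_Icc] at hp'
        exact ⟨hp'.2.2.2, hp2.2⟩
      · rintro ⟨p1, p2, p3, p4⟩ ⟨q1, q2, q3, q4⟩ ⟨hp, he⟩ ⟨hq, he2⟩ h
        simp only [Prod.mk.injEq] at he he2 h ⊢
        obtain ⟨rfl, rfl, rfl⟩ := he
        obtain ⟨rfl, rfl, rfl⟩ := he2
        exact ⟨rfl, rfl, rfl, h⟩
    have h3 := card_dvd_spaced (P := fun r : ℤ => (-(N : ℤ) ≤ r ∧ r ≤ N) ∧
      (d : ℤ) ∣ 2 * r + a + b) hfin2 d (2 * (N : ℝ)) hd.2.2.one_lt.le (by positivity) ?_ ?_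
    · refine le_trans (by exact_mod_cast h2) (h3.trans ?_)
      have hdD : (D : ℝ) ≤ (d : ℝ) := by exact_mod_cast hd.1.le
      have : 2 * (N : ℝ) / (d : ℝ) ≤ 2 * (N : ℝ) / (D : ℝ) :=
        div_le_div_of_nonneg_left (by positivity) hD0 hdD
      linarith
    · intro x y hx hy'
      have h4 : (d : ℤ) ∣ 2 * (x - y) := by
        have := dvd_sub hx.2 hy'.2
        have e : 2 * x + a + b - (2 * y + a + b) = 2 * (x - y) := by ring
        rwa [e] at this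
      have hcop : IsCoprime (d : ℤ) 2 := by
        have h5 : Nat.Coprime d 2 := by
          rw [hd.2.2.coprime_iff_not_dvd]
          intro h6
          have := Nat.le_of_dvd (by norm_num) h6
          omega
        exact_mod_cast Nat.isCoprime_iff_coprime.2 h5
      exact hcop.dvd_of_dvd_mul_left h4
    · intro x y hx hy'
      have hx1 : (-(N : ℝ)) ≤ (x : ℝ) := by exact_mod_cast hx.1.1
      have hx2 : (x : ℝ) ≤ (N : ℝ) := by exact_mod_cast hx.1.2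
      have hy1 : (-(N : ℝ)) ≤ (y : ℝ) := by exact_mod_cast hy'.1.1
      have hy2 : (y : ℝ) ≤ (N : ℝ) := by exact_mod_cast hy'.1.2
      rw [abs_le]
      constructor <;> linarith

/-- EB3: the energy of the bad points -/
theorem eb3 (ey3 : Ey3Stmt) (vcn : VcnStmt) (dvb : DvbStmt) : Eb3Stmt := by
  intro ε hε
  obtain ⟨C₁, hC₁, h1⟩ := ey3 ε hε
  obtain ⟨C₂, hC₂, h2⟩ := vcn
  obtain ⟨C₃, hC₃, h3⟩ := dvb (ε / 2) (by linarith)
  refine ⟨C₁ + 3 * C₂ * C₃, by positivity, ?_⟩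
  intro N D K U G t b S hpar
  have hpar' := hpar
  obtain ⟨hDK, -, hD10, hD8, hKD, hG1, hGD, -, -, -, -, -, hS⟩ := hpar'
  have hDN : D ≤ N := by
    have : D ≤ D ^ 8 := Nat.le_self_pow (by norm_num) D
    omega
  have hD0 : (0 : ℝ) < (D : ℝ) := by exact_mod_cast (by omega : 0 < D)
  have hD1 : (1 : ℝ) ≤ (D : ℝ) := by exact_mod_cast (by omega : 1 ≤ D)
  have hN0 : (0 : ℝ) < (N : ℝ) := by exact_mod_cast (by omega : 0 < N)
  have hG0 : (0 : ℝ) < G := by linarith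
  have hpairs := fin_pairs N S
  have hsub : ∀ p ∈ P3b N S, p ∈ P3 N S := fun p hp => (Finset.mem_filter.1 hp).1
  have hR : {v : (ℕ × ℕ × ℕ × ℤ) × (ℕ × ℕ × ℕ × ℤ) | v.1 ∈ P3 N S ∧ v.2 ∈ P3 N S ∧
      Close3 K t v ∧ (v.2.2.2.1 : ℤ) * Z3 v.1 ≠ (v.1.2.2.1 : ℤ) * Z3 v.2}.Finite :=
    hpairs.subset fun v hv => ⟨hv.1, hv.2.1⟩
  have hQ : {v : (ℕ × ℕ × ℕ × ℤ) × (ℕ × ℕ × ℕ × ℤ) | v.1 ∈ P3b N S ∧ v.2 ∈ P3 N S ∧
      Close3 K t v ∧ (v.2.2.2.1 : ℤ) * Z3 v.1 = (v.1.2.2.1 : ℤ) * Z3 v.2}.Finite :=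
    hpairs.subset fun v hv => ⟨hsub _ hv.1, hv.2.1⟩
  have hsplit := card_or_le
    (P := fun v : (ℕ × ℕ × ℕ × ℤ) × (ℕ × ℕ × ℕ × ℤ) => v.1 ∈ P3b N S ∧ v.2 ∈ P3b N S ∧
      Close3 K t v) hR hQ (fun v hv => by
        by_cases h : (v.2.2.2.1 : ℤ) * Z3 v.1 = (v.1.2.2.1 : ℤ) * Z3 v.2
        · exact Or.inr ⟨hv.1, hsub _ hv.2.1, hv.2.2, h⟩
        · exact Or.inl ⟨hsub _ hv.1, hsub _ hv.2.1, hv.2.2, h⟩)
  have hYne := h1 N D K U G t b S hpar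
  have hYeq : (Nat.card {v : (ℕ × ℕ × ℕ × ℤ) × (ℕ × ℕ × ℕ × ℤ) // v.1 ∈ P3b N S ∧
      v.2 ∈ P3 N S ∧ Close3 K t v ∧
      (v.2.2.2.1 : ℤ) * Z3 v.1 = (v.1.2.2.1 : ℤ) * Z3 v.2} : ℝ) ≤
      (((P3b N S) ×ˢ S).card : ℝ) * ((C₂ * (D : ℝ) ^ 3 * G) * (C₃ * (N : ℝ) ^ ε)) := by
    refine card_fib_le hQ (fun v => (v.1, v.2.2.2.1)) ((P3b N S) ×ˢ S) _ ?_ ?_
    · intro v hv
      have h4 := hv.2.1
      simp only [P3, Finset.mem_product] at h4
      simp only [Finset.mem_product]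
      exact ⟨hv.1, h4.2.2.1⟩
    · rintro ⟨p, d'⟩ hy
      simp only [Finset.mem_product] at hy
      have hpd : p.2.2.1 ∈ S := by
        have h4 := hsub _ hy.1
        simp only [P3, Finset.mem_product] at h4
        exact h4.2.2.1
      have hpd0 : ((p.2.2.1 : ℕ) : ℤ) ≠ 0 := by
        have := (hS _ hpd).1
        exact_mod_cast (by omega : p.2.2.1 ≠ 0)
      set c : ℝ := t * (n3 p : ℝ) with hc
      have hW : {w : ℤ | 1 ≤ w ∧ w ≤ (N : ℤ) ^ 2 ∧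
          Nr (20 * t * (d' : ℝ) ^ 3 * (w : ℝ) - c) (1 / (K : ℝ) ^ 3)}.Finite := by
        refine (Finset.Icc (1 : ℤ) ((N : ℤ) ^ 2)).finite_toSet.subset fun w hw => ?_
        simpa using ⟨hw.1, hw.2.1⟩
      have hP : {v : (ℕ × ℕ × ℕ × ℤ) × (ℕ × ℕ × ℕ × ℤ) | (v.1 ∈ P3b N S ∧ v.2 ∈ P3 N S ∧
          Close3 K t v ∧ (v.2.2.2.1 : ℤ) * Z3 v.1 = (v.1.2.2.1 : ℤ) * Z3 v.2) ∧
          (v.1, v.2.2.2.1) = (p, d')}.Finite := hQ.subset fun v hv => hv.1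
      have h5 := card_fib_le' hP hW (fun v => V3 v.2) (C₃ * (N : ℝ) ^ ε) ?_ ?_
      · refine h5.trans ?_
        refine mul_le_mul_of_nonneg_right ?_ (by positivity)
        exact h2 N D K U G t b S hpar d' hy.2 c
      · rintro ⟨p₁, q⟩ ⟨⟨hv1, hv2, hv3, hv4⟩, hv5⟩
        simp only [Prod.mk.injEq] at hv5
        obtain ⟨rfl, rfl⟩ := hv5
        have h6 := hv2
        simp only [P3, Finset.mem_product, Finset.mem_Icc] at h6
        obtain ⟨⟨ha1, ha2⟩, ⟨hb1, hb2⟩, -, -⟩ := h6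
        have ha1' : (1 : ℤ) ≤ (q.1 : ℤ) := by exact_mod_cast ha1
        have hb1' : (1 : ℤ) ≤ (q.2.1 : ℤ) := by exact_mod_cast hb1
        have ha2' : (q.1 : ℤ) ≤ (N : ℤ) := by exact_mod_cast ha2
        have hb2' : (q.2.1 : ℤ) ≤ (N : ℤ) := by exact_mod_cast hb2
        refine ⟨?_, ?_, ?_⟩
        · show 1 ≤ (q.1 : ℤ) * (q.2.1 : ℤ)
          nlinarith
        · show (q.1 : ℤ) * (q.2.1 : ℤ) ≤ (N : ℤ) ^ 2
          nlinarith
        · obtain ⟨z, hz⟩ := hv3 2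
          refine ⟨-z, ?_⟩
          have e1 : co3 2 p₁ = n3 p₁ := rfl
          have e2 : co3 2 q = n3 q := rfl
          have e3 : ((n3 q : ℤ) : ℝ) = 20 * ((V3 q : ℤ) : ℝ) * ((q.2.2.1 : ℕ) : ℝ) ^ 3 := by
            simp only [n3]
            push_cast
            ring
          rw [e1, e2] at hz
          have e4 : |20 * t * ((q.2.2.1 : ℕ) : ℝ) ^ 3 * ((V3 q : ℤ) : ℝ) - c - ((-z : ℤ) : ℝ)| =
              |t * (n3 p₁ : ℝ) - t * (n3 q : ℝ) - (z : ℝ)| := by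
            rw [← abs_neg]
            congr 1
            rw [hc, e3]
            push_cast
            ring
          rw [e4]
          refine hz.trans (le_of_eq ?_)
          norm_num
      · intro w hw
        have hw0 : w ≠ 0 := by have := hw.1; omega
        have hw1 : (1 : ℝ) ≤ (w : ℝ) := by exact_mod_cast hw.1
        have hw2 : (w : ℝ) ≤ (N : ℝ) ^ 2 := by exact_mod_cast hw.2.1
        have h6 := h3 w hw0
        have hfac : {x : ℤ × ℤ × ℤ × ℤ | x.1 * x.2.1 * x.2.2.1 * x.2.2.2 = w}.Finite := by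
          refine (((Finset.Icc (-|w|) |w|) ×ˢ (Finset.Icc (-|w|) |w|) ×ˢ (Finset.Icc (-|w|) |w|) ×ˢ
            (Finset.Icc (-|w|) |w|)).finite_toSet).subset fun x hx => ?_
          have key : ∀ y : ℤ, y ∣ w → y ∈ Finset.Icc (-|w|) |w| := by
            intro y hy
            rw [Finset.mem_Icc, ← abs_le]
            exact Int.le_of_dvd (abs_pos.2 hw0) ((abs_dvd_abs y w).2 hy)
          have hx' : x.1 * x.2.1 * x.2.2.1 * x.2.2.2 = w := hx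
          simp only [Finset.coe_product, Set.mem_prod, Finset.mem_coe]
          refine ⟨key _ ⟨x.2.1 * x.2.2.1 * x.2.2.2, by rw [← hx']; ring⟩,
            key _ ⟨x.1 * x.2.2.1 * x.2.2.2, by rw [← hx']; ring⟩,
            key _ ⟨x.1 * x.2.1 * x.2.2.2, by rw [← hx']; ring⟩,
            key _ ⟨x.1 * x.2.1 * x.2.2.1, by rw [← hx']; ring⟩⟩
        have h7 : Nat.card {v : (ℕ × ℕ × ℕ × ℤ) × (ℕ × ℕ × ℕ × ℤ) //
            ((v.1 ∈ P3b N S ∧ v.2 ∈ P3 N S ∧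
            Close3 K t v ∧ (v.2.2.2.1 : ℤ) * Z3 v.1 = (v.1.2.2.1 : ℤ) * Z3 v.2) ∧
            (v.1, v.2.2.2.1) = (p, d')) ∧ V3 v.2 = w} ≤
            Nat.card {x : ℤ × ℤ × ℤ × ℤ // x.1 * x.2.1 * x.2.2.1 * x.2.2.2 = w} := by
          refine card_inj_le (fun v => ((v.2.1 : ℤ), (v.2.2.1 : ℤ), (1 : ℤ), (1 : ℤ))) hfac ?_ ?_
          · rintro v ⟨_, hv⟩
            show (v.2.1 : ℤ) * (v.2.2.1 : ℤ) * 1 * 1 = w
            rw [← hv]
            simp only [V3]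
            ring
          · rintro ⟨p₁, a₁, b₁, d₁, r₁⟩ ⟨p₂, a₂, b₂, d₂, r₂⟩ ⟨⟨⟨-, -, -, hv4⟩, hv5⟩, -⟩
              ⟨⟨⟨-, -, -, hu4⟩, hu5⟩, -⟩ h
            simp only [Prod.mk.injEq, Nat.cast_inj, and_true] at hv5 hu5 h
            obtain ⟨rfl, rfl⟩ := hv5
            obtain ⟨rfl, rfl⟩ := hu5
            obtain ⟨rfl, rfl⟩ := h
            have h8 : ((p₂.2.2.1 : ℕ) : ℤ) * (Z3 (a₁, b₁, d₂, r₁)) =
                ((p₂.2.2.1 : ℕ) : ℤ) * (Z3 (a₁, b₁, d₂, r₂)) := by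
              rw [← hv4, ← hu4]
            have h9 := mul_left_cancel₀ hpd0 h8
            simp only [Z3] at h9
            have h10 : r₁ = r₂ := by linarith
            rw [h10]
        refine le_trans (by exact_mod_cast h7) (h6.trans ?_)
        refine mul_le_mul_of_nonneg_left ?_ hC₃.le
        rw [abs_of_pos (by linarith)]
        calc (w : ℝ) ^ (ε / 2) ≤ ((N : ℝ) ^ 2) ^ (ε / 2) :=
              Real.rpow_le_rpow (by linarith) hw2 (by linarith)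
          _ = (N : ℝ) ^ ε := by
              rw [← Real.rpow_natCast, ← Real.rpow_mul hN0.le]
              congr 1
              push_cast
              ring
  have hcb := card_bad N D S hD10 hDN hS
  have hcS : ((S.card : ℕ) : ℝ) ≤ (D : ℝ) := by exact_mod_cast card_S hS
  have e5 : (N : ℝ) ^ (3 + ε) = (N : ℝ) ^ 3 * (N : ℝ) ^ ε := by
    rw [Real.rpow_add hN0]
    congr 1
    exact_mod_cast Real.rpow_natCast (N : ℝ) 3
  have hA : (((P3b N S) ×ˢ S).card : ℝ) * ((C₂ * (D : ℝ) ^ 3 * G) * (C₃ * (N : ℝ) ^ ε)) ≤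
      3 * C₂ * C₃ * (N : ℝ) ^ (3 + ε) * (D : ℝ) ^ 4 * G := by
    rw [Finset.card_product]
    push_cast
    have hpos : (0 : ℝ) ≤ (C₂ * (D : ℝ) ^ 3 * G) * (C₃ * (N : ℝ) ^ ε) := by positivity
    calc ((P3b N S).card : ℝ) * (S.card : ℝ) * ((C₂ * (D : ℝ) ^ 3 * G) * (C₃ * (N : ℝ) ^ ε))
        ≤ (3 * (N : ℝ) ^ 3 * (D : ℝ)) * ((C₂ * (D : ℝ) ^ 3 * G) * (C₃ * (N : ℝ) ^ ε)) := by
          refine mul_le_mul_of_nonneg_right ?_ hpos
          exact mul_le_mul hcb hcS (by positivity) (by positivity)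
      _ = 3 * C₂ * C₃ * (N : ℝ) ^ (3 + ε) * (D : ℝ) ^ 4 * G := by
          rw [e5]; ring
  have hB : C₁ * (N : ℝ) ^ (3 + ε) * (D : ℝ) * G ≤ C₁ * (N : ℝ) ^ (3 + ε) * (D : ℝ) ^ 4 * G := by
    have h6 : (D : ℝ) ≤ (D : ℝ) ^ 4 := by
      calc (D : ℝ) = (D : ℝ) ^ 1 := (pow_one _).symm
        _ ≤ (D : ℝ) ^ 4 := pow_le_pow_right₀ hD1 (by norm_num)
    have h7 : (0 : ℝ) ≤ C₁ * (N : ℝ) ^ (3 + ε) := by positivity
    exact mul_le_mul_of_nonneg_right (mul_le_mul_of_nonneg_left h6 h7) hG0.le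
  have hsplit' := (Nat.cast_le (α := ℝ)).2 hsplit
  rw [Nat.cast_add] at hsplit'
  refine hsplit'.trans ?_
  refine (add_le_add (hYne.trans hB) (hYeq.trans hA)).trans (le_of_eq ?_)
  ring

end Pool.Agent.VM5.H17
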