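import Mathlib
import Pool.Agent.VM5.StmtsB
import Pool.Agent.Helper10_VM5.Mt5

/-!
# WF5: quintic sums for `t` far from rational numbers with small denominators
-/

set_option autoImplicit false

namespace Pool.Agent.VM5.H17

open Pool.Agent.Helper69_Weyl (ee)
open Pool.Agent.VM5

theorem far_ww (N u : ℕ) (t : ℝ) (b : ℤ) (hf : VM.Far 5 N t) (hu : 1 ≤ u)
    (hg : Int.gcd b (u : ℤ) = 1) : (N : ℝ) ≤ 4 * WW N u t b := by
  have h := hf b u hu hg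
  have h1 : (u : ℝ) ≤ WW N u t b := le_max_left _ _
  have h2 : |t - (b : ℝ) / (u : ℝ)| * (u : ℝ) * (N : ℝ) ^ 5 ≤ WW N u t b := le_max_right _ _
  have h3 : (u : ℝ) * (1 + (N : ℝ) ^ 5 * |t - (b : ℝ) / (u : ℝ)|) =
      (u : ℝ) + |t - (b : ℝ) / (u : ℝ)| * (u : ℝ) * (N : ℝ) ^ 5 := by ring
  rw [h3] at h
  linarith

theorem case2w (b2w : B2wStmt) (pru : PruStmt) (nu2 : Nu2Stmt) : ∃ (C : ℝ) (N₀ : ℕ), 0 < C ∧
    ∀ (N u : ℕ) (t ξ : ℝ) (b : ℤ), N₀ ≤ N → 1 ≤ N → 1 ≤ u → Int.gcd b (u : ℤ) = 1 →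
      WW N u t b ≤ 2 * (N : ℝ) ^ ((1917 : ℝ) / 1000) → (N : ℝ) ≤ 4 * WW N u t b →
      u < N ^ 2 → ‖WS t ξ N‖ ^ 40 ≤ C * (N : ℝ) ^ ((3748 : ℝ) / 100) := by
  obtain ⟨C, hC, hbl⟩ := b2w (1 / 20000) (by norm_num)
  obtain ⟨D₀, hpru⟩ := pru 4 (1 / 20000) (by norm_num)
  obtain ⟨N₀, hnu⟩ := nu2
  refine ⟨C, max N₀ (D₀ ^ 9), hC, ?_⟩
  intro N u t ξ b hN hN1 hu hgcd hW hfar h1
  have hN1' : (1 : ℝ) ≤ (N : ℝ) := by exact_mod_cast hN1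
  have hN0' : (0 : ℝ) < (N : ℝ) := by linarith
  obtain ⟨D, K, k1, k2, k3, k4, k5, k6, k7, k8, k9, k10, k11⟩ :=
    hnu N ((le_max_left _ _).trans hN)
  have hD0 : D₀ ≤ D := by
    have := (H10.pow9 D₀ N (5205 / 10000) hN1 ((le_max_right _ _).trans hN)
      (by norm_num)).trans k9
    exact_mod_cast this
  have hDpos : (0 : ℝ) < (D : ℝ) := by
    have : 0 < D := by omega
    exact_mod_cast this
  have huD : u < D ^ 4 := by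
    calc u < N ^ 2 := h1
      _ ≤ (D ^ 2) ^ 2 := Nat.pow_le_pow_left k4 2
      _ = D ^ 4 := by ring
  have hcard := hpru D u hD0 hu huD
  have hpar : Par2w N D K u t b
      ((Finset.Ioc D (2 * D)).filter (fun d => d.Prime ∧ ¬ d ∣ u)) := by
    refine ⟨k1, k2, k3, k4, k5, k6, k7, hu, hgcd, ?_, hW.trans k11, hfar, ?_⟩
    · calc 1000000 * WW N u t b ≤ 1000000 * (2 * (N : ℝ) ^ ((1917 : ℝ) / 1000)) :=
            mul_le_mul_of_nonneg_left hW (by norm_num)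
        _ = 2000000 * (N : ℝ) ^ ((1917 : ℝ) / 1000) := by ring
        _ ≤ (K : ℝ) ^ 4 := k10
    · intro d hd
      rw [Finset.mem_filter, Finset.mem_Ioc] at hd
      exact ⟨hd.1.1, hd.1.2, hd.2.1, hd.2.2⟩
  have hb := hbl N D K u t ξ b _ hpar hcard
  refine hb.trans ?_
  rw [mul_div_assoc]
  refine mul_le_mul_of_nonneg_left ?_ hC.le
  calc (N : ℝ) ^ (38 + 4 * (1 / 20000 : ℝ)) / (D : ℝ)
      ≤ (N : ℝ) ^ (38 + 4 * (1 / 20000 : ℝ)) / (N : ℝ) ^ ((5205 : ℝ) / 10000) :=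
        div_le_div_of_nonneg_left (by positivity) (by positivity) k9
    _ = (N : ℝ) ^ ((38 + 4 * (1 / 20000 : ℝ)) - 5205 / 10000) := by
        rw [← Real.rpow_sub hN0']
    _ ≤ (N : ℝ) ^ ((3748 : ℝ) / 100) :=
        Real.rpow_le_rpow_of_exponent_le hN1' (by norm_num)

/-- Dirichlet's theorem -/
theorem dirichlet (t : ℝ) (Q : ℕ) (hQ : 1 ≤ Q) : ∃ (b : ℤ) (u : ℕ), 1 ≤ u ∧ u ≤ Q ∧
    Int.gcd b (u : ℤ) = 1 ∧ |t - (b : ℝ) / (u : ℝ)| ≤ 1 / ((u : ℝ) * (Q : ℝ)) := by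
  obtain ⟨x, h1, h2⟩ := Real.exists_rat_abs_sub_le_and_den_le t (n := Q) hQ
  refine ⟨x.num, x.den, x.pos, h2, ?_, ?_⟩
  · have := x.reduced
    rw [Int.gcd_def, Int.natAbs_natCast]
    exact this
  · have hx : (x : ℝ) = (x.num : ℝ) / (x.den : ℝ) := by
      exact_mod_cast (Rat.num_div_den x).symm
    rw [hx] at h1
    refine h1.trans ?_
    have hd : (0 : ℝ) < (x.den : ℝ) := by exact_mod_cast x.pos
    have hQ0 : (0 : ℝ) < (Q : ℝ) := by exact_mod_cast hQ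
    apply one_div_le_one_div_of_le (by positivity)
    nlinarith

theorem wf5 (b2w : B2wStmt) (bl3 : Bl3Stmt) (pru : PruStmt) (nu2 : Nu2Stmt)
    (nu3 : Nu3Stmt) : Wf5Stmt := by
  obtain ⟨C3, N3, hC3, h3⟩ := H10.case3 bl3 pru nu3
  obtain ⟨C2, N2, hC2, h2⟩ := case2w b2w pru nu2
  obtain ⟨N₀, hN₀⟩ : ∃ N₀ : ℕ, N₀ = max (max N3 N2) 2 := ⟨_, rfl⟩
  have hN₀pos : (0 : ℝ) < (N₀ : ℝ) := by
    have : 0 < N₀ := by omega
    exact_mod_cast this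
  obtain ⟨A, hA⟩ : ∃ A : ℝ, A = (N₀ : ℝ) ^ 40 := ⟨_, rfl⟩
  have hA0 : 0 < A := by rw [hA]; positivity
  obtain ⟨M, hM⟩ : ∃ M : ℝ, M = 1 + A + C3 + C2 := ⟨_, rfl⟩
  have hM1 : 1 ≤ M := by rw [hM]; linarith
  refine ⟨M, by linarith, ?_⟩
  intro N t ξ hN1 hfar
  have hN1' : (1 : ℝ) ≤ (N : ℝ) := by exact_mod_cast hN1
  have hN0' : (0 : ℝ) < (N : ℝ) := by linarith
  have hP1 : (1 : ℝ) ≤ (N : ℝ) ^ ((3748 : ℝ) / 100) := Real.one_le_rpow hN1' (by norm_num)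
  have hP0 : (0 : ℝ) ≤ (N : ℝ) ^ ((3748 : ℝ) / 100) := by linarith
  have hX0 : 0 ≤ ‖WS t ξ N‖ := norm_nonneg _
  suffices hmain : ‖WS t ξ N‖ ^ 40 ≤ M * (N : ℝ) ^ ((3748 : ℝ) / 100) by
    have hfin : ‖WS t ξ N‖ ^ 40 ≤ (M * (N : ℝ) ^ ((937 : ℝ) / 1000)) ^ 40 := by
      calc ‖WS t ξ N‖ ^ 40 ≤ M * (N : ℝ) ^ ((3748 : ℝ) / 100) := hmain
        _ ≤ M ^ 40 * (N : ℝ) ^ ((3748 : ℝ) / 100) :=
            mul_le_mul_of_nonneg_right (le_self_pow₀ hM1 (by norm_num)) hP0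
        _ = (M * (N : ℝ) ^ ((937 : ℝ) / 1000)) ^ 40 := by
            rw [mul_pow, ← Real.rpow_natCast ((N : ℝ) ^ ((937 : ℝ) / 1000)) 40,
              ← Real.rpow_mul hN0'.le]
            norm_num
    exact le_of_pow_le_pow_left₀ (by norm_num) (by positivity) hfin
  by_cases hlarge : N₀ ≤ N
  swap
  · have h4 : ‖WS t ξ N‖ ^ 40 ≤ A := by
      rw [hA]
      refine pow_le_pow_left₀ hX0 ((H10.ws_le t ξ N).trans ?_) 40
      have : N ≤ N₀ := by omega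
      exact_mod_cast this
    calc ‖WS t ξ N‖ ^ 40 ≤ A * 1 := by rw [mul_one]; exact h4
      _ ≤ M * (N : ℝ) ^ ((3748 : ℝ) / 100) :=
          mul_le_mul (by rw [hM]; linarith) hP1 (by norm_num) (by linarith)
  have hN3 : N3 ≤ N := by omega
  have hN2 : N2 ≤ N := by omega
  have hNtwo : 2 ≤ N := by omega
  obtain ⟨x, hx⟩ : ∃ x : ℝ, x = (N : ℝ) ^ ((3083 : ℝ) / 1000) := ⟨_, rfl⟩
  have hx0 : 0 < x := by rw [hx]; positivity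
  have hx3 : (N : ℝ) ^ 3 ≤ x := by
    rw [hx, ← Real.rpow_natCast]
    exact Real.rpow_le_rpow_of_exponent_le hN1' (by norm_num)
  have hxG : x = (N : ℝ) ^ 3 * (N : ℝ) ^ ((83 : ℝ) / 1000) := by
    rw [hx, ← Real.rpow_natCast, ← Real.rpow_add hN0']
    norm_num
  obtain ⟨Q, hQ⟩ : ∃ Q : ℕ, Q = ⌊x⌋₊ := ⟨_, rfl⟩
  have hQx : (Q : ℝ) ≤ x := by rw [hQ]; exact Nat.floor_le hx0.le
  have hQN : N ^ 3 ≤ Q := by
    rw [hQ]
    apply Nat.le_floor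
    exact_mod_cast hx3
  have hQ1 : 1 ≤ Q := le_trans (Nat.one_le_pow _ _ (by omega)) hQN
  have hQ1' : (1 : ℝ) ≤ (Q : ℝ) := by exact_mod_cast hQ1
  have hxQ : x ≤ 2 * (Q : ℝ) := by
    have := Nat.lt_floor_add_one x
    rw [← hQ] at this
    linarith
  obtain ⟨b, u, hu1, huQ, hgcdu, htu⟩ := dirichlet t Q hQ1
  have hu0 : (0 : ℝ) < (u : ℝ) := by exact_mod_cast hu1
  have huQ' : (u : ℝ) ≤ (Q : ℝ) := by exact_mod_cast huQ
  have htu2 : |t - (b : ℝ) / (u : ℝ)| ≤ 1 / (u : ℝ) ^ 2 := by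
    refine htu.trans ?_
    rw [sq]
    exact one_div_le_one_div_of_le (by positivity) (mul_le_mul_of_nonneg_left huQ' hu0.le)
  by_cases hc : (N : ℝ) ^ 2 ≤ (u : ℝ) * (N : ℝ) ^ ((83 : ℝ) / 1000)
  · have h5 := h3 N u t ξ b hN3 hN1 hu1 hgcdu htu2 hc ((huQ'.trans hQx).trans hxG.le)
    exact h5.trans (mul_le_mul_of_nonneg_right (by rw [hM]; linarith) hP0)
  · rw [not_le] at hc
    have hG1 : (1 : ℝ) ≤ (N : ℝ) ^ ((83 : ℝ) / 1000) := Real.one_le_rpow hN1' (by norm_num)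
    have hG0 : (0 : ℝ) < (N : ℝ) ^ ((83 : ℝ) / 1000) := by linarith
    have h1917 : (N : ℝ) ^ 2 = (N : ℝ) ^ ((1917 : ℝ) / 1000) * (N : ℝ) ^ ((83 : ℝ) / 1000) := by
      rw [← Real.rpow_natCast, ← Real.rpow_add hN0']
      norm_num
    have hulo : (u : ℝ) < (N : ℝ) ^ ((1917 : ℝ) / 1000) := by
      rw [h1917] at hc
      exact lt_of_mul_lt_mul_right hc hG0.le
    have huN2 : u < N ^ 2 := by
      have h6 : (u : ℝ) ≤ (u : ℝ) * (N : ℝ) ^ ((83 : ℝ) / 1000) :=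
        le_mul_of_one_le_right hu0.le hG1
      have : (u : ℝ) < (N : ℝ) ^ 2 := lt_of_le_of_lt h6 hc
      exact_mod_cast this
    have hW := H10.ww_le N u Q t x b hN1 hu1 hQ1 hx hxQ htu hulo
    have h5 := h2 N u t ξ b hN2 hN1 hu1 hgcdu hW (far_ww N u t b hfar hu1 hgcdu) huN2
    exact h5.trans (mul_le_mul_of_nonneg_right (by rw [hM]; linarith) hP0)

end Pool.Agent.VM5.H17
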